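import Pool.Agent.H30.SgE

/-!
Colouring g-segment graphs is NP-complete for every fixed g at least three.
-/

namespace Pool.Agent.Results.MP_16f91c_lc.Complete

open Pool.Agent.H38.NP Pool.Agent.H30.Sg

theorem result : ∀ g : ℕ, 3 ≤ g → NPComplete (lang (SegCol g)) := fun _ hg => npc3 hg

end Pool.Agent.Results.MP_16f91c_lc.Complete
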